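import Pool.Agent.Run7.h560.LM.Main
import Pool.Agent.Run7.h560.AP.Bridge
import Pool.Agent.H95R2.Leh.Congr
import Pool.Prelude.Def_F_72ad9e24

set_option autoImplicit false

/-!
# The composite solutions of `n ≡ a(n) (mod φ(n))` in the translates of automatic sets
-/

namespace Pool.Agent.Results.MP_b50d59_nt.LehmerInAutomaticSets

open Pool.Agent.Run7.h560.AP

/-- The solutions of Q1: the composite integers `n > 4` for which `φ(n)` divides `n - a(n)`. -/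
def Solution (n : ℕ) : Prop := 4 < n ∧ ¬ n.Prime ∧ n.totient ∣ n - Nca8c8b9b.a n

lemma log_cond (c : ℝ) (hc : 0 < c) : ∃ x₁ : ℕ, ∀ x : ℕ, x₁ ≤ x → ∀ h : ℤ, (h.natAbs : ℝ) ≤ Real.exp ((x : ℝ) ^ (c / 2)) →
    (Nat.log 2 (x + h.natAbs) : ℝ) ≤ (x : ℝ) ^ c := by
  have h1 := (isLittleO_log_rpow_atTop (show 0 < c / 2 by linarith)).def (show (0 : ℝ) < 1 by norm_num)
  have h2 := (tendsto_rpow_atTop (show 0 < c / 2 by linarith)).eventually (Filter.eventually_ge_atTop (4 : ℝ))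
  have h3 := (h1.and (h2.and (Filter.eventually_ge_atTop (1 : ℝ))))
  obtain ⟨X, hX⟩ := Filter.eventually_atTop.1 h3
  obtain ⟨x₁, hx₁⟩ := exists_nat_ge X
  refine ⟨x₁, fun x hx h hh => ?_⟩
  obtain ⟨a1, a2, a3⟩ := hX x (hx₁.trans (by exact_mod_cast hx))
  obtain ⟨t, ht⟩ : ∃ t, t = (x : ℝ) ^ (c / 2) := ⟨_, rfl⟩
  rw [← ht] at a1 a2 hh
  have hx0 : (0 : ℝ) < x := by linarith
  have hlog0 : 0 ≤ Real.log x := Real.log_nonneg a3
  rw [Real.norm_of_nonneg hlog0, one_mul, Real.norm_of_nonneg (by linarith)] at a1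
  have e1 : (x : ℝ) ^ c = t ^ 2 := by
    rw [ht, ← Real.rpow_natCast, ← Real.rpow_mul hx0.le]
    congr 1
    push_cast
    ring
  have e2 : Real.log ((x + h.natAbs : ℕ) : ℝ) ≤ Real.log 2 + Real.log x + t := by
    have e3 : ((x + h.natAbs : ℕ) : ℝ) ≤ 2 * x * Real.exp t := by
      have e4 : 1 ≤ Real.exp t := Real.one_le_exp (by linarith)
      push_cast
      nlinarith
    have e5 : Real.log (2 * x * Real.exp t) = Real.log 2 + Real.log x + t := by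
      rw [Real.log_mul (by positivity) (Real.exp_pos t).ne', Real.log_exp, Real.log_mul (by norm_num) hx0.ne']
    rw [← e5]
    apply Real.log_le_log _ e3
    push_cast
    have : (0 : ℝ) ≤ h.natAbs := Nat.cast_nonneg _
    linarith
  have e6 := Real.natLog_le_logb (x + h.natAbs) 2
  have e7 : Real.logb (2 : ℕ) ((x + h.natAbs : ℕ) : ℝ) ≤ t ^ 2 := by
    have hl2 := Real.log_two_gt_d9
    unfold Real.logb
    push_cast at e2 ⊢
    rw [div_le_iff₀ (by linarith)]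
    have hl3 := Real.log_two_lt_d9
    have e8 : 4 * t ≤ t ^ 2 := by nlinarith
    have e9 : 4 * t * Real.log 2 ≤ t ^ 2 * Real.log 2 := mul_le_mul_of_nonneg_right e8 (by linarith)
    have e10 : 4 * t * 0.69 ≤ 4 * t * Real.log 2 := mul_le_mul_of_nonneg_left (by linarith) (by linarith)
    linarith
  rw [e1]
  exact e6.trans e7

/-- **Main theorem.** -/
theorem result :
    (∀ b : ℕ, 2 ≤ b → ∀ (σ : Type) [Fintype σ] (M : DFA ℕ σ), NonSparse (autoSet b M) →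
      ∃ (c : ℝ) (x₀ : ℕ), 0 < c ∧ ∀ x : ℕ, x₀ ≤ x → ∀ h : ℤ, (h.natAbs : ℝ) ≤ Real.exp ((x : ℝ) ^ c) →
        (Set.ncard {n : ℕ | n ∈ autoSet b M ∧ n < x ∧ ∃ l : ℕ, (l : ℤ) = n + h ∧ Solution l} : ℝ) ≤
          below (autoSet b M) x * (x : ℝ) ^ (-c)) ∧
    (∀ b : ℕ, 2 ≤ b → ∀ S : Finset ℕ, 0 ∈ S → 1 ∈ S →
      ∃ (c : ℝ) (x₀ : ℕ), 0 < c ∧ ∀ x : ℕ, x₀ ≤ x → ∀ h : ℤ, (h.natAbs : ℝ) ≤ Real.exp ((x : ℝ) ^ c) →
        (Set.ncard {n : ℕ | n ∈ digitSet b S ∧ n < x ∧ ∃ l : ℕ, (l : ℤ) = n + h ∧ Solution l} : ℝ) ≤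
          below (digitSet b S) x * (x : ℝ) ^ (-c)) := by
  have main : ∀ b : ℕ, 2 ≤ b → ∀ (σ : Type) [Fintype σ] (M : DFA ℕ σ),
      (∀ k : ℕ, ∃ᶠ N : ℕ in Filter.atTop, Real.log N ^ k < (cnt b M N (fun _ => True) : ℝ)) →
      ∃ (c : ℝ) (x₀ : ℕ), 0 < c ∧ ∀ x : ℕ, x₀ ≤ x → ∀ h : ℤ, (h.natAbs : ℝ) ≤ Real.exp ((x : ℝ) ^ c) →
        (Set.ncard {n : ℕ | n ∈ autoSet b M ∧ n < x ∧ ∃ l : ℕ, (l : ℤ) = n + h ∧ Solution l} : ℝ) ≤
          below (autoSet b M) x * (x : ℝ) ^ (-c) := by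
    intro b hb σ _ M hM
    obtain ⟨c, N₀, hc, h1⟩ := Pool.Agent.Run7.h560.LM.leh_aut b hb M hM
    obtain ⟨x₁, hx₁⟩ := log_cond c hc
    refine ⟨c / 2, N₀ + x₁ + 1, by linarith, fun x hx h hh => ?_⟩
    have h2 := h1 x (by omega) h (hx₁ x (by omega) h hh)
    have h3 : Set.ncard {n : ℕ | n ∈ autoSet b M ∧ n < x ∧ ∃ l : ℕ, (l : ℤ) = n + h ∧ Solution l} ≤
        cnt b M x (fun n => ∃ l : ℕ, (l : ℤ) = n + h ∧ Pool.Agent.H95R2.Leh.Leh l) := by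
      apply ncard_le_cnt
      rintro n ⟨a1, a2, l, a3, a4, a5, a6⟩
      exact ⟨a1, a2, l, a3, Pool.Agent.H95R2.Leh.leh_of_congr a4 a5 a6⟩
    have hx1 : (1 : ℝ) ≤ x := by exact_mod_cast (by omega : 1 ≤ x)
    calc (Set.ncard {n : ℕ | n ∈ autoSet b M ∧ n < x ∧ ∃ l : ℕ, (l : ℤ) = n + h ∧ Solution l} : ℝ) ≤
        cnt b M x (fun n => ∃ l : ℕ, (l : ℤ) = n + h ∧ Pool.Agent.H95R2.Leh.Leh l) := by exact_mod_cast h3
      _ ≤ cnt b M x (fun _ => True) * (x : ℝ) ^ (-c) := h2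
      _ ≤ below (autoSet b M) x * (x : ℝ) ^ (-(c / 2)) := by
          rw [below_cnt]
          apply mul_le_mul_of_nonneg_left _ (Nat.cast_nonneg _)
          exact Real.rpow_le_rpow_of_exponent_le hx1 (by linarith)
  refine ⟨fun b hb σ _ M hM => main b hb σ M (nonsparse b M hM), fun b hb S h0 h1 => ?_⟩
  have h2 := main b hb Bool (dfa S) (digits_growth b hb S h0 h1)
  rwa [← digit_auto] at h2

end Pool.Agent.Results.MP_b50d59_nt.LehmerInAutomaticSets
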