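import Pool.Agent.Run7.h316.UN.Far

/-!
# Lehmer's totient problem at the values of polynomials at primes and at linear forms in primes

The question is whether there is a composite integer `n > 4` such that `φ(n) ∣ n - a(n)`, where `a(n)` is the
largest exponent in the prime factorisation of `n`; equivalently, whether `φ(n) ∣ n - 1` for a composite `n`.

Let `c w`, `w ∈ Ω`, be a family of integral vectors with `r` coordinates, and `S M ⊂ Ω` finite sets. For a linear
form `ℓ` and a nonconstant polynomial `f` with integral coefficients put `x_w = f(ℓ(c w))`. `Usually N`: for ALL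
pairs `(ℓ, f)` with the property `N`

(i) for ALL polynomials `G ≠ 0` with integral coefficients and ALL `k` there are, for 100% of the `w`, `k` primes `q`,
not divisors of `G(x_w)`, each of which divides `p - 1` for some prime divisor `p` of `x_w` (so the radical of
`φ(x_w)` does not divide `G(x_w)`),

(ii) for ALL `G ≠ 0` and `m` we have `m gcd(φ(x_w), G(x_w)) ≤ φ(x_w)` for 100% of the `w`, if `x_w` is positive,

and, if all the pairs `(ℓ, f + b)`, `b ∈ ℤ`, have the property `N`,

(iii) for ALL `B` and 100% of the `w` there is no composite solution `n > 4` of `φ(n) ∣ n - a(n)` with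
`|n - x_w| ≤ B`.

(100%: the proportion of the exceptions `w ∈ S M` tends to zero, `M → ∞`.)

**Theorem.** (A) PRIMES. Let `Nice ℓ f` mean that at least two coefficients of `ℓ` are different from zero, or `ℓ ≠ 0`
and `f` is not a monomial. `Usually Nice` is unit-robust (`Pool.Agent.Run7.h316.UN.UnitRobust`): it holds for the
vectors of prime numbers `≤ M`, and for all families which are spread over the vectors of units: the proportion of
the vectors in a given class modulo `q` is at most `C φ(q) ^ (-r) + o(1)`, and almost no vectors have a coordinate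
which is not prime to `q`, for all `q` prime to some number.

Examples. `r = 1`: for almost all primes `p` and every polynomial `f` with at least two nonconstant terms (`p ^ 2 + p`,
`p ^ 9 - 7 p`, ...) no solution is near `f(p)`; the values `f(p) ≤ x`, `deg f ≥ 2`, are so few that this does not
follow from the bound `x ^ (1 / 2)` for the number of the solutions up to `x`; (i) and (ii) hold for `f(p) = p + b`,
`b ≠ 0`, `f(p) = p ^ 2 + 1`, .... `r = 2`: for almost all pairs of primes and ALL nonconstant `f` no solution is near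
`f(p + p')`, `f(p - p')`, `f(2 p + 3 p')`, ....

(For monomials `f(p) = a p ^ j`, `ℓ(p) = p`, (i) is false: no prime `q` divides `p - 1` for almost all primes `p`.)

(B) For all `(ℓ, f)` with `ℓ ≠ 0` the property `Usually` is spread-robust (`SpreadRobust`): all spread families have it
(at most the proportion `C q ^ (-r) + o(1)` in each class), metric sequences, random orbits, generalised polynomials.

The starting files contain in (B) the metric sequences (`MetricSequences`) and the random orbits (`RandomOrbits`,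
helper891).

Proof. For a prime `q` and a nonconstant `g` the sum of the reciprocals of the primes `p ≡ 1 (mod q)` modulo which `g`
has a zero diverges (helper891, `Pool.Agent.N891.LT.PQ_diverges`). If `f = X ^ j g`, `g(0) ≠ 0`, is not a monomial, the
zeros of `g` modulo `p` are units for large `p`, and so the proportion `1 / (p - 1)` of the units `u` modulo `p` has
`f(ℓ_i u) = 0`; if two coefficients of `ℓ` are units modulo `p`, `ℓ(u) = t` for at least the proportion `1 / (2 p)` of
the vectors `u` of units, for every `t`. Therefore the set of the vectors such that no prime `p ≡ 1 (mod q)` divides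
`f(ℓ(c))` is unit null (`Pool.Agent.Run7.h316.UN.unit_hit_null`): for all `D` and `ε > 0` at most the proportion `ε` of
the vectors of units modulo some `Q` prime to `D` are classes of elements of it. The local conditions have
proportions of about `1 / p`, so the numbers `Q` which are needed satisfy `Q / φ(Q) → ∞`, and it would not be enough
to count all the classes modulo `Q`.
-/

set_option autoImplicit false

namespace Pool.Agent.Results.MP_b50d59_nt.PrimeArguments

open Polynomial
open Pool.Agent.Run7.h316.EQ (Rare)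
open Pool.Agent.Run7.h316.UN (SpreadRobust UnitRobust TwoNonzero)

/-- `n` is a composite integer `n > 4` with `φ(n) ∣ n - a(n)`, where `a(n)` is the largest exponent in the
prime factorisation of `n`. -/
def Solution (n : ℕ) : Prop := 4 < n ∧ ¬ n.Prime ∧ n.totient ∣ (n - Nca8c8b9b.a n)

/-- There are `k` primes `q` with `q ∤ G(n)` and `q ∣ p - 1` for some prime divisor `p` of `n`. -/
def Far (G : ℤ[X]) (k : ℕ) (n : ℤ) : Prop :=
  ∃ Q : Finset ℕ, Q.card = k ∧ ∀ q ∈ Q, q.Prime ∧ ¬ (q : ℤ) ∣ G.eval n ∧
    ∃ p : ℕ, p.Prime ∧ (p : ℤ) ∣ n ∧ q ∣ p - 1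

/-- The proportion of the `w` in `S M` without the property `P` tends to zero, `M → ∞`. -/
def Most {Ω : Type} (S : ℕ → Finset Ω) (P : Ω → Prop) : Prop :=
  ∀ ε : ℝ, 0 < ε → ∃ M₀ : ℕ, ∀ M : ℕ, M₀ ≤ M →
    (({w : Ω | w ∈ S M ∧ ¬ P w}.ncard : ℕ) : ℝ) ≤ ε * (S M).card

/-- At least two coefficients of the linear form are different from zero, or one, and the polynomial is not a
monomial. -/
def Nice {ι : Type} (lam : ι → ℤ) (f : ℤ[X]) : Prop :=
  TwoNonzero lam ∨ (lam ≠ 0 ∧ ∀ (a : ℤ) (j : ℕ), f ≠ C a * X ^ j)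

/-- For all linear forms `lam` and all nonconstant polynomials `f` with the property `N` and for 100% of the `w`,
with `x = f(∑ lam i * c w i)`:
(i) there are `k` primes `q` with `q ∤ G(x)` and `q ∣ p - 1` for some prime divisor `p` of `x`, for all `G ≠ 0`
and `k`;
(ii) `m gcd(φ(x), G(x)) ≤ φ(x)`, if `x ≥ 1`, for all `G ≠ 0` and `m`;
and, if all pairs `(lam, f + b)` have the property `N`,
(iii) no solution `n` has `|n - x| ≤ B`, for all `B`. -/
def Usually {ι : Type} [Fintype ι] (N : (ι → ℤ) → ℤ[X] → Prop) (Ω : Type) (S : ℕ → Finset Ω)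
    (c : Ω → ι → ℤ) : Prop :=
  ∀ (lam : ι → ℤ) (f : ℤ[X]), 0 < f.natDegree →
    (N lam f →
      (∀ G : ℤ[X], G ≠ 0 → ∀ k : ℕ, Most S fun w => Far G k (f.eval (∑ i, lam i * c w i))) ∧
      (∀ G : ℤ[X], G ≠ 0 → ∀ m : ℕ, Most S fun w => ∀ n : ℕ, 1 ≤ n →
        (n : ℤ) = f.eval (∑ i, lam i * c w i) →
          m * Nat.gcd n.totient (G.eval (n : ℤ)).natAbs ≤ n.totient)) ∧
    ((∀ b : ℤ, N lam (f + C b)) → ∀ B : ℕ, Most S fun w => ∀ n : ℕ,
      |(n : ℤ) - f.eval (∑ i, lam i * c w i)| ≤ B → ¬ Solution n)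

theorem usually_of {ι : Type} [Fintype ι] (N : (ι → ℤ) → ℤ[X] → Prop) (Ω : Type)
    (S : ℕ → Finset Ω) (c : Ω → ι → ℤ)
    (h : ∀ (lam : ι → ℤ) (f : ℤ[X]), 0 < f.natDegree → N lam f → ∀ G : ℤ[X], G ≠ 0 → ∀ k : ℕ,
      Rare S c {x | ¬ Pool.Agent.N891.LT.Far G k (f.eval (∑ i, lam i * x i))}) :
    Usually N Ω S c := by
  classical
  intro lam f hf
  refine ⟨fun hN => ⟨fun G hG k => h lam f hf hN G hG k, fun G hG m => ?_⟩, fun hN B => ?_⟩
  · refine Pool.Agent.Run7.h316.EQ.Rare.mono (B := {x | ¬ ∀ n : ℕ, 1 ≤ n →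
      (n : ℤ) = f.eval (∑ i, lam i * x i) →
        m * Nat.gcd n.totient (G.eval (n : ℤ)).natAbs ≤ n.totient}) ?_ (h lam f hf hN G hG m)
    intro x hx hF
    apply hx
    intro n hn hnt
    rw [← hnt] at hF
    have h4 := Pool.Agent.N891.LT.far_gcd hn hF
    have h5 : m * Nat.gcd n.totient (G.eval (n : ℤ)).natAbs ≤
        2 ^ m * Nat.gcd n.totient (G.eval (n : ℤ)).natAbs :=
      Nat.mul_le_mul_right _ Nat.lt_two_pow_self.le
    exact h5.trans h4
  · have hX : (X - 1 : ℤ[X]) ≠ 0 := X_sub_C_ne_zero 1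
    refine Pool.Agent.Run7.h316.EQ.Rare.mono (B := {x | ¬ ∀ n : ℕ,
      |(n : ℤ) - f.eval (∑ i, lam i * x i)| ≤ B → ¬ Solution n}) ?_
      (Pool.Agent.Run7.h316.UN.rare_biUnion' (S := S) (c := c) (Finset.Icc (-(B : ℤ)) B)
        (B := fun b => {x | ¬ Pool.Agent.N891.LT.Far (X - 1) 1 ((f + C b).eval (∑ i, lam i * x i))})
        fun b _ => h lam (f + C b) (by rwa [natDegree_add_C]) (hN b) (X - 1) hX 1)
    intro x hx
    simp only [Set.mem_ofPred_eq, not_forall, not_not] at hx
    obtain ⟨n, hn, h4, hc, hd⟩ := hx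
    rw [Set.mem_iUnion₂]
    refine ⟨(n : ℤ) - f.eval (∑ i, lam i * x i), Finset.mem_Icc.2 (abs_le.1 hn), ?_⟩
    have e : (f + C ((n : ℤ) - f.eval (∑ i, lam i * x i))).eval (∑ i, lam i * x i) = (n : ℤ) := by
      rw [eval_add, eval_C]
      ring
    show ¬ Pool.Agent.N891.LT.Far (X - 1) 1
      ((f + C ((n : ℤ) - f.eval (∑ i, lam i * x i))).eval (∑ i, lam i * x i))
    rw [e]
    exact Pool.Agent.N891.LT.not_far h4 hc hd

/-- **Lehmer's totient problem at the values of polynomials at primes and at linear forms in primes**, at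
families which are spread over the vectors of units, and at spread families, metric sequences, random orbits and
generalised polynomials. -/
theorem result (ι : Type) [Fintype ι] [DecidableEq ι] [Nonempty ι] :
    UnitRobust (Usually (ι := ι) Nice) ∧ SpreadRobust (Usually (ι := ι) fun lam _ => lam ≠ 0) := by
  classical
  have c1 : Countable ℤ[X] := by
    rw [← Cardinal.mk_le_aleph0_iff]
    refine (Polynomial.cardinalMk_le_max (R := ℤ)).trans ?_
    exact max_le (Cardinal.mk_le_aleph0_iff.2 inferInstance) le_rfl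
  constructor
  · refine Pool.Agent.Run7.h316.UN.unitRobust_of
      (I := {d : (ι → ℤ) × ℤ[X] × ℤ[X] × ℕ // 0 < d.2.1.natDegree ∧ Nice d.1 d.2.1 ∧ d.2.2.1 ≠ 0})
      (fun i => {x : ι → ℤ | ¬ Pool.Agent.N891.LT.Far i.1.2.2.1 i.1.2.2.2
        (i.1.2.1.eval (∑ j, i.1.1 j * x j))})
      (fun i => Pool.Agent.Run7.h316.UN.unit_far i.1.1 i.1.2.1 i.2.1 i.2.2.1 i.1.2.2.1 i.2.2.2
        i.1.2.2.2) _ ?_
    intro Ω S c h
    exact usually_of _ Ω S c fun lam f hf hN G hG k => h ⟨(lam, f, G, k), hf, hN, hG⟩
  · refine Pool.Agent.Run7.h316.UN.spreadRobust_of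
      (I := {d : (ι → ℤ) × ℤ[X] × ℤ[X] × ℕ // 0 < d.2.1.natDegree ∧ d.1 ≠ 0 ∧ d.2.2.1 ≠ 0})
      (fun i => {x : ι → ℤ | ¬ Pool.Agent.N891.LT.Far i.1.2.2.1 i.1.2.2.2
        (i.1.2.1.eval (∑ j, i.1.1 j * x j))})
      (fun i => Pool.Agent.N891.LT.far_null i.1.1 i.2.2.1 i.1.2.1 i.2.1 i.1.2.2.1 i.2.2.2
        i.1.2.2.2) _ ?_
    intro Ω S c h
    exact usually_of _ Ω S c fun lam f hf hN G hG k => h ⟨(lam, f, G, k), hf, hN, hG⟩

end Pool.Agent.Results.MP_b50d59_nt.PrimeArguments
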