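import Pool.Agent.Run7.h972.AW.Base
import Pool.Agent.Results.MP_b50d59_nt.RandomOrbits

/-!
# Lehmer's totient problem along random orbits of affine maps, for example random digits

The question is whether there is a composite integer `n > 4` such that `φ(n) ∣ n - a(n)`, where `a(n)` is the
largest exponent in the prime factorisation of `n`; equivalently, whether `φ(n) ∣ n - 1` for a composite `n`.

The starting result `RandomOrbits` (whose definitions `Far`, `MostTimes`, `FarFromLehmer`, `Solution` are
used) is about the random orbit of a vector `u ≠ 0` under matrices of determinant one which generate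
`SL_r(ℤ/q)`, `r ≥ 2`. Here the maps are affine and need not be invertible, and `r = 1` is allowed.

Let `x ↦ A_j x + b_j`, `j ≤ m`, be a finite family of affine maps of `ℤ^r` (`AffineWalk`) which for all `q`
prime to some `M` are permutations of `(ℤ/q)^r` and generate a transitive group. The determinants of the
`A_j` are arbitrary nonzero integers. For instance, for `r = 1`: any finite family of maps
`x ↦ a_j x + b_j` of `ℤ`, `a_j ≠ 0`, two of which do not commute (`Run7.h972.AW.line_walk`), such as
`x ↦ 10 x + d` for the `d` in a set of at least two digits (the orbit of `0` are the initial segments of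
a random decimal number with digits in this set) or `x ↦ 2 x + 1`, `x ↦ 3 x`; in general, `x ↦ A x + d`
(digits in a matrix base, random walks on `ℤ^r` for `A = 1`). For independent and uniformly distributed
indices `w 0, w 1, …` let `c_0 = u`, `c_(t+1) = A_(w t) c_t + b_(w t)`.

**Theorem.** Almost surely the following holds for ALL vectors `u`, ALL linear forms `ℓ ≠ 0` with integral
coefficients and ALL nonconstant polynomials `f` with integral coefficients, and `x_t = f(ℓ(c_t))`.

(1) For ALL polynomials `G ≠ 0` with integral coefficients, ALL `k` and for 100% of the `t` there are `k`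
primes `q`, not divisors of `G(x_t)`, each of which divides `p - 1` for some prime divisor `p` of `x_t`. So the
radical of `φ(x_t)` does not divide `G(x_t)`.

(2) For ALL `G ≠ 0` and `M` we have `M gcd(φ(x_t), G(x_t)) ≤ φ(x_t)` for 100% of the `t`, if `x_t` is positive.

(3) For ALL `C` and 100% of the `t` there is no composite solution `n > 4` of `φ(n) ∣ n - a(n)` with
`|n - x_t| ≤ C`.

For example, for `f = x` and the maps `x ↦ 10 x + d`, `d = 0, 1`: for almost every sequence of digits `0`, `1`,
100% of its initial segments are far from all solutions.

Proof. The exceptional vectors in (1) form a pronull set (first part of the starting result): its image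
in `(ℤ/q)^r` is small for suitable `q` prime to any given number. By the ergodic theorem for walks on finite
groups (starting library, `Pool.Agent.N24.RW`), applied to the group of affine permutations of `(ℤ/q)^r`,
the orbit is in a pronull set only at times of density zero (`Run7.h972.AW`).
-/

set_option autoImplicit false

namespace Pool.Agent.Results.MP_b50d59_nt.RandomAffineOrbits

open Polynomial MeasureTheory
open Pool.Agent.N24.RW (ProNull words)
open Pool.Agent.Results.MP_b50d59_nt.RandomOrbits (Far FarFromLehmer countable_poly all_of_far)
open Run7.h972.AW

theorem result (r : ℕ) (W : AffineWalk (Fin r)) :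
    ∀ᵐ w ∂(words W.m), ∀ u lam : Fin r → ℤ, lam ≠ 0 → ∀ f : ℤ[X], 0 < f.natDegree →
      FarFromLehmer fun t => f.eval (∑ i, lam i * aorb W u w t i) := by
  have key := (Pool.Agent.Results.MP_b50d59_nt.RandomOrbits.result r).1
  have c1 : Countable ℤ[X] := countable_poly
  have h : ∀ᵐ w ∂(words W.m), ∀ u lam : Fin r → ℤ, lam ≠ 0 → ∀ f : ℤ[X], 0 < f.natDegree →
      ∀ G : ℤ[X], G ≠ 0 → ∀ k : ℕ, Pool.Agent.N891.LT.Rare fun t =>
        ¬ Pool.Agent.N891.LT.Far G k (f.eval (∑ i, lam i * aorb W u w t i)) := by
    simp only [ae_all_iff]
    intro u lam hl f hf G hG k
    filter_upwards [Run7.h972.AW.main W u (key lam hl f hf G hG k)] with w hw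
    exact hw
  filter_upwards [h] with w hw u lam hl f hf
  exact all_of_far (y := fun t => ∑ i, lam i * aorb W u w t i)
    (fun f' hf' => hw u lam hl f' hf') f hf

end Pool.Agent.Results.MP_b50d59_nt.RandomAffineOrbits
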