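import Pool.Agent.Results.MP_b50d59_nt.RandomOrbits
import Pool.Agent.Run7.h823.WF.PN
import Pool.Agent.Run7.h823.WF.Ex

/-!
# Lehmer's totient problem in sparse families of vectors of residues: the first `m ^ ε` terms of linear recurrences modulo `m`

The question is whether there is a composite integer `n > 4` such that `φ(n) ∣ n - a(n)`, where `a(n)` is the largest
exponent in the prime factorisation of `n`; equivalently, whether `φ(n) ∣ n - 1` for a composite `n`.

Let `y_i`, `i ∈ s`, be a finite family of vectors of residues modulo an integer `q` with small Fourier coefficients: for all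
`h ≠ 0` modulo `q` we have `|∑ e(h·y_i / q)| ≤ δ (log q) ^ (-r) |s|`, where `r` is the number of the coordinates. We consider
the numbers `x_i = f(ℓ(c₀ + y_i))` (least residues), for linear forms `ℓ ≠ 0` with integral coefficients,
nonconstant polynomials `f` with integral coefficients and any integral vector `c₀`.

**Theorem.** For all `r`, `B` and `ε > 0` there is `δ > 0` such that for all `q ≥ 1 / δ`, ALL such families
and ALL `c₀` the following holds for all but `ε |s|` of the `i`, SIMULTANEOUSLY for ALL linear forms `ℓ ≠ 0` with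
coefficients at most `B` in absolute value, ALL nonconstant `f` and ALL `G ≠ 0` with integral coefficients, of
degree at most `B` and with coefficients at most `B`:

(1) there are `B` primes `p'`, not divisors of `G(x_i)`, each of which divides `p - 1` for some prime divisor `p` of `x_i`;

(2) `B gcd(φ(x_i), G(x_i)) ≤ φ(x_i)`, if `x_i` is positive;

(3) there is no composite solution `n > 4` of `φ(n) ∣ n - a(n)` with `|n - x_i| ≤ B`.

The family can be very sparse: examples (of vectors with `r` coordinates) are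

* the values `(u_1(n), …, u_r(n))`, `n < N`, of `r` linear recurrences modulo a prime `m` with linearly independent vectors
  of coefficients, as soon as `N ≥ m ^ ε` and the roots and their quotients have orders `≥ m ^ ε`;
* the vectors `(x_1 b_1 ^ n, …, x_r b_r ^ n)`, `n < N`, `N ≥ m ^ ε`, for fixed different integers `b_j ≥ 2` and
  all `x_j ≠ 0`, modulo all but `C X ^ ε` of the primes `m ≤ X`.

In these examples only `m ^ ε` of the `m ^ r` vectors of the box occur.

From Mathlib: `ZMod.stdAddChar`: the additive character `j ↦ exp (2 π i j / q)` of the integers modulo `q`; `ZMod.val`: the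
least residue.

The proof: the vectors `c` for which (1) fails form a pronull set (starting file `RandomOrbits`, `Pool.Agent.N891.LT.Pro`);
families with small Fourier coefficients rarely meet pronull sets, since they are equidistributed modulo every fixed integer
(`Pool.Agent.Run7.h823.WF.PN`); the Fourier coefficients of short recurrences are estimated by the method of
Bourgain, Glibichuk and Konyagin (`Pool.Agent.Run7.h823.BK`).
-/

set_option autoImplicit false

namespace Pool.Agent.Results.MP_b50d59_nt.ResidueVectors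

open Polynomial
open Pool.Agent.Results.MP_b50d59_nt.RandomOrbits (Solution Far)
open Finset (range)

/-- The Fourier coefficients of the vectors of residues `y i`, `i ∈ s`, modulo `q` at the nonzero frequencies are at most
`η` times the number of the vectors: `|∑ i ∈ s, e(h·y_i / q)| ≤ η |s|` for all vectors `h ≠ 0` modulo `q`. -/
def Flat {τ ι : Type} [Fintype ι] (q : ℕ) [NeZero q] (η : ℝ) (s : Finset τ) (y : τ → ι → ZMod q) : Prop :=
  ∀ h : ι → ZMod q, h ≠ 0 → ‖∑ i ∈ s, (ZMod.stdAddChar (∑ j, h j * y i j) : ℂ)‖ ≤ η * s.card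

/-- The integral vector `c₀ + y_i`, with the least residues `0 ≤ y_i < q`. -/
def vec {τ ι : Type} {q : ℕ} (y : τ → ι → ZMod q) (c₀ : ι → ℤ) (i : τ) (j : ι) : ℤ := c₀ j + ((y i j).val : ℕ)

/-- A polynomial with integral coefficients which has degree at most `B` and coefficients at most `B` in absolute value. -/
def Small (B : ℕ) (P : ℤ[X]) : Prop := P.natDegree ≤ B ∧ ∀ j, |P.coeff j| ≤ B

/-- The three properties of the integral vector `c`: for all linear forms `ℓ ≠ 0` with coefficients `|lam_j| ≤ B`, all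
nonconstant `f` and all `G ≠ 0` of degree at most `B` and with coefficients at most `B` we have for `x = f(ℓ(c))`
(1) there are `B` primes `p'` with `p' ∤ G(x)` and `p' ∣ p - 1` for some prime divisor `p` of `x`;
(2) `B gcd(φ(x), G(x)) ≤ φ(x)`, if `x ≥ 1`;
(3) no solution `n` has `|n - x| ≤ B`. -/
def FarFromLehmer {r : ℕ} (B : ℕ) (c : Fin r → ℤ) : Prop :=
  ∀ lam : Fin r → ℤ, lam ≠ 0 → (∀ j, |lam j| ≤ B) → ∀ f : ℤ[X], 0 < f.natDegree → Small B f →
    (∀ G : ℤ[X], G ≠ 0 → Small B G → Far G B (f.eval (∑ j, lam j * c j)) ∧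
      ∀ n : ℕ, 1 ≤ n → (n : ℤ) = f.eval (∑ j, lam j * c j) →
        B * Nat.gcd n.totient (G.eval (n : ℤ)).natAbs ≤ n.totient) ∧
    ∀ n : ℕ, |(n : ℤ) - f.eval (∑ j, lam j * c j)| ≤ B → ¬ Solution n

open Pool.Agent.N24.RW (ProNull) in
theorem null (r B : ℕ) : ProNull {c : Fin r → ℤ | ¬ FarFromLehmer B c} := by
  obtain ⟨F, hF⟩ : ∃ F : Set ((Fin r → ℤ) × ℤ[X] × ℤ[X]), F = {a : (Fin r → ℤ) × ℤ[X] × ℤ[X] | (a.1 ≠ 0 ∧ ∀ j, |a.1 j| ≤ B) ∧
    (0 < a.2.1.natDegree ∧ ∃ f : ℤ[X], Small B f ∧ ∃ b ∈ Set.Icc (-(B : ℤ)) B, a.2.1 = f + C b) ∧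
    (a.2.2 ≠ 0 ∧ (Small B a.2.2 ∨ a.2.2 = X - 1))} := ⟨_, rfl⟩
  have h1 := Pool.Agent.Run7.h823.WF.PN.finite_poly B
  have hfin : F.Finite := by
    have h2 : (Set.image2 (fun (f : ℤ[X]) (b : ℤ) => f + C b) {P : ℤ[X] | P.natDegree ≤ B ∧ ∀ j, |P.coeff j| ≤ B}
      (Set.Icc (-(B : ℤ)) B)).Finite := Set.Finite.image2 _ h1 (Set.finite_Icc _ _)
    have h3 : ({P : ℤ[X] | P.natDegree ≤ B ∧ ∀ j, |P.coeff j| ≤ B} ∪ {X - 1}).Finite := h1.union (Set.finite_singleton _)
    refine ((Pool.Agent.Run7.h823.WF.PN.finite_vec (Fin r) B).prod (h2.prod h3)).subset ?_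
    rw [hF]
    rintro ⟨a, f, G⟩ ⟨⟨-, h4⟩, ⟨-, f', h5, b, h6, h7⟩, -, h8⟩
    refine ⟨h4, ⟨f', h5, b, h6, h7.symm⟩, ?_⟩
    rcases h8 with h8 | h8
    · exact Or.inl h8
    · exact Or.inr h8
  have h2 := Pool.Agent.Run7.h823.WF.PN.proNull_union hfin
    (fun a => {c : Fin r → ℤ | ¬ Pool.Agent.N891.LT.Far a.2.2 (B + 1) (a.2.1.eval (∑ j, a.1 j * c j))})
    (fun a ha => by
      rw [hF] at ha
      obtain ⟨⟨h4, -⟩, ⟨h5, -⟩, h6, -⟩ := ha
      exact Pool.Agent.N891.LT.far_null a.1 h4 a.2.1 h5 a.2.2 h6 (B + 1))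
  refine Pool.Agent.N24.RW.Clo.mono ?_ h2
  intro c hc
  rw [Set.mem_ofPred_eq] at hc ⊢
  by_contra hcon
  apply hc
  have key : ∀ a ∈ F, Pool.Agent.N891.LT.Far a.2.2 (B + 1) (a.2.1.eval (∑ j, a.1 j * c j)) := by
    intro a ha
    by_contra h
    exact hcon ⟨a, ha, h⟩
  have sub : ∀ (G : ℤ[X]) (k l : ℕ) (n : ℤ), k ≤ l → Pool.Agent.N891.LT.Far G l n → Pool.Agent.N891.LT.Far G k n := by
    rintro G k l n hkl ⟨Q, hQ, hq⟩
    obtain ⟨Q', hQ', hc'⟩ := Finset.exists_subset_card_eq (s := Q) (n := k) (by omega)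
    exact ⟨Q', hc', fun q hq' => hq q (hQ' hq')⟩
  intro lam hl hlB f hf hfB
  refine ⟨fun G hG hGB => ?_, fun n hn hS => ?_⟩
  · have h3 := key (lam, f, G) (by
      rw [hF]
      exact ⟨⟨hl, hlB⟩, ⟨hf, f, hfB, 0, ⟨by simp, by simp⟩, by simp⟩, hG, Or.inl hGB⟩)
    have h4 := sub G B (B + 1) _ (Nat.le_succ B) h3
    refine ⟨h4, fun n hn hnx => ?_⟩
    rw [← hnx] at h4
    exact (Nat.mul_le_mul_right _ Nat.lt_two_pow_self.le).trans (Pool.Agent.N891.LT.far_gcd hn h4)
  · obtain ⟨b, hb⟩ : ∃ b : ℤ, b = (n : ℤ) - f.eval (∑ j, lam j * c j) := ⟨_, rfl⟩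
    have h3 := key (lam, f + C b, X - 1) (by
      rw [hF]
      refine ⟨⟨hl, hlB⟩, ⟨?_, f, hfB, b, ?_, rfl⟩, X_sub_C_ne_zero 1, Or.inr rfl⟩
      · rw [natDegree_add_C]
        exact hf
      · rw [hb]
        exact abs_le.1 hn)
    have h4 := sub _ 1 (B + 1) _ (by omega) h3
    have e : (f + C b).eval (∑ j, lam j * c j) = (n : ℤ) := by
      rw [eval_add, eval_C, hb]
      ring
    simp only at h4
    rw [e] at h4
    exact Pool.Agent.N891.LT.not_far hS.1 hS.2.1 hS.2.2 h4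

/-- **Theorem.** (1) For all `r`, `B` and `ε > 0` there is `δ > 0` such that for all `q ≥ 1 / δ`, all families of vectors of
residues modulo `q` with Fourier coefficients at most `δ (log q) ^ (-r) |s|` at the nonzero frequencies and all integral
vectors `c₀` all but `ε |s|` of the members `c₀ + y_i` have the three properties `FarFromLehmer`.

(2) Examples: short linear recurrences. (3) Examples: the first powers of fixed integers, modulo all but `C X ^ ε` of the
primes `m ≤ X`. (The Fourier coefficients are even at most `m ^ (-β) N`.) -/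
theorem result :
    (∀ (r B : ℕ) (ε : ℝ), 0 < ε → ∃ δ : ℝ, 0 < δ ∧ ∀ (q : ℕ) [NeZero q], 1 / δ ≤ q →
      ∀ (τ : Type) (s : Finset τ) (y : τ → Fin r → ZMod q), Flat q (δ / Real.log q ^ r) s y →
      ∀ c₀ : Fin r → ℤ, ({i : τ | i ∈ s ∧ ¬ FarFromLehmer B (vec y c₀ i)}.ncard : ℝ) ≤ ε * s.card) ∧
    (∀ (k : ℕ) (ε : ℝ), 0 < ε → ∃ β : ℝ, 0 < β ∧ ∃ m₀ : ℕ, ∀ (m : ℕ) [Fact m.Prime], m₀ ≤ m →
      ∀ (ι : Type) [Fintype ι] (c : ι → Fin k → ZMod m) (g : Fin k → (ZMod m)ˣ) (N : ℕ), LinearIndependent (ZMod m) c →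
      (∀ i, (m : ℝ) ^ ε ≤ orderOf (g i)) → (∀ i j, i ≠ j → (m : ℝ) ^ ε ≤ orderOf (g i / g j)) → (m : ℝ) ^ ε ≤ N →
      Flat m ((m : ℝ) ^ (-β)) (range N) (fun n j => ∑ i, c j i * (g i : ZMod m) ^ n)) ∧
    (∀ (ι : Type) [Fintype ι] (ε : ℝ), 0 < ε → ∃ β : ℝ, 0 < β ∧ ∀ b : ι → ℕ, (∀ j, 2 ≤ b j) → Function.Injective b →
      ∃ C : ℝ, ∀ X : ℕ, 1 ≤ X → ∀ Q : Finset ℕ,
      (∀ m ∈ Q, m ≤ X ∧ ∃ _ : Fact m.Prime, ¬ ∀ N : ℕ, (m : ℝ) ^ ε ≤ N → ∀ x : ι → ZMod m, (∀ j, x j ≠ 0) →
        Flat m ((m : ℝ) ^ (-β)) (range N) (fun n j => x j * (b j : ZMod m) ^ n)) →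
      (Q.card : ℝ) ≤ C * (X : ℝ) ^ ε) := by
  refine ⟨?_, fun k ε hε => Pool.Agent.Run7.h823.WF.flat_rec' k hε,
    fun ι _ ε hε => Pool.Agent.Run7.h823.WF.flat_pow' ι hε⟩
  intro r B ε hε
  obtain ⟨δ, hδ, h⟩ := Pool.Agent.Run7.h823.WF.PN.rare _ (null r B) hε
  refine ⟨δ, hδ, fun q _ hq τ s y hf c₀ => h τ q hq s y ?_ c₀⟩
  rw [Fintype.card_fin]
  exact hf

end Pool.Agent.Results.MP_b50d59_nt.ResidueVectors
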